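import Pool.Agent.J6H74.PS.Dual

/-!
# Perfect sequence covering arrays exist for all large indices
-/

set_option autoImplicit false

namespace Pool.Agent.J6H74.PS

open Finset

variable {α : Type} [DecidableEq α] [Fintype α]

omit [Fintype α] in
theorem exists_perm [Finite α] {y y' : List α} (hy : y.Nodup) (hy' : y'.Nodup)
    (h : y.length = y'.length) : ∃ σ : Equiv.Perm α, y.map σ = y' := by
  let f : Fin y.length ↪ α := ⟨fun i => y.get i, hy.injective_get⟩
  let f' : Fin y.length ↪ α := ⟨fun i => y'.get (i.cast h), fun i j hij => by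
    have := hy'.injective_get hij
    exact Fin.cast_injective h this⟩
  haveI := Equiv.Perm.isMultiplyPretransitive α y.length
  obtain ⟨σ, hσ⟩ := MulAction.exists_smul_eq (Equiv.Perm α) f f'
  refine ⟨σ, List.ext_get (by simpa using h) fun i h1 h2 => ?_⟩
  have h3 := DFunLike.congr_fun hσ (⟨i, by simpa using h1⟩ : Fin y.length)
  simp only [List.get_eq_getElem, List.getElem_map]
  exact h3

/-- the action of a permutation of the letters -/
def mapX (σ : Equiv.Perm α) (x : XX α) : XX α := ⟨x.1.map σ, x.2.1.map σ.injective, by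
  ext c
  simp only [List.mem_toFinset, List.mem_map, mem_univ, iff_true]
  refine ⟨σ.symm c, ?_, by simp⟩
  rw [← List.mem_toFinset, x.2.2]
  exact mem_univ _⟩

/-- as an equivalence -/
def eqX (σ : Equiv.Perm α) : XX α ≃ XX α where
  toFun := mapX σ
  invFun := mapX σ.symm
  left_inv x := by
    apply Subtype.ext
    simp [mapX]
  right_inv x := by
    apply Subtype.ext
    simp [mapX]

theorem sum_col_eq {k : ℕ} (y y' : YY α k) : ∑ x, col k x y = ∑ x, col k x y' := by
  classical
  obtain ⟨σ, hσ⟩ := exists_perm y.2.1 y'.2.1 (by rw [y.2.2, y'.2.2])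
  rw [← Equiv.sum_comp (eqX σ) (fun x => col k x y')]
  refine Finset.sum_congr rfl fun x _ => ?_
  unfold col
  have h1 : y.1.Sublist x.1 ↔ y'.1.Sublist (eqX σ x).1 := by
    rw [← hσ]
    change _ ↔ (y.1.map σ).Sublist (x.1.map σ)
    constructor
    · intro h
      exact h.map σ
    · intro h
      have h2 := h.map σ.symm
      simpa using h2
  by_cases h : y.1.Sublist x.1
  · rw [if_pos h, if_pos (h1.1 h)]
  · rw [if_neg h, if_neg (fun h' => h (h1.2 h'))]

theorem sum_col_pos {k : ℕ} (y : YY α k) : 0 < ∑ x, col k x y := by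
  classical
  have hx : Ord (Finset.univ : Finset α) (y.1 ++ (Finset.univ \ y.1.toFinset).toList) := by
    refine ⟨?_, ?_⟩
    · rw [List.nodup_append]
      refine ⟨y.2.1, Finset.nodup_toList _, ?_⟩
      intro a ha b hb hab
      subst hab
      rw [Finset.mem_toList, mem_sdiff] at hb
      exact hb.2 (List.mem_toFinset.2 ha)
    · ext c
      simp only [List.mem_toFinset, List.mem_append, Finset.mem_toList, mem_sdiff, mem_univ,
        true_and, iff_true]
      tauto
  have h1 : col k ⟨_, hx⟩ y = 1 := by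
    unfold col
    rw [if_pos (List.sublist_append_left _ _)]
  have h2 : ∀ x ∈ (Finset.univ : Finset (XX α)), 0 ≤ col k x y := by
    intro x _
    unfold col
    split_ifs <;> simp
  have h3 := Finset.single_le_sum h2 (mem_univ (⟨_, hx⟩ : XX α))
  rw [h1] at h3
  linarith

/-- **signed perfect sequence covering arrays of index one** -/
theorem signed (k : ℕ) : ∃ μ : XX α → ℤ, ∀ y : YY α k, ∑ x, μ x * col k x y = 1 := by
  classical
  rcases isEmpty_or_nonempty (YY α k) with h | ⟨⟨y₀⟩⟩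
  · exact ⟨fun _ => 0, fun y => (h.false y).elim⟩
  · have hM := sum_col_pos y₀
    obtain ⟨M, hMd⟩ : ∃ M, M = ∑ x, col k x y₀ := ⟨_, rfl⟩
    rw [← hMd] at hM
    have hM' : (M : ℚ) ≠ 0 := by exact_mod_cast hM.ne'
    obtain ⟨μ, hμ⟩ := integrality k (fun _ : YY α k => 1) (fun _ => (M : ℚ)⁻¹) (by
      intro y
      rw [← Finset.mul_sum]
      have h1 : (∑ x : XX α, (col k x y : ℚ)) = M := by
        rw [hMd, sum_col_eq y₀ y]
        push_cast
        rfl
      rw [h1, inv_mul_cancel₀ hM']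
      simp)
    exact ⟨μ, fun y => (hμ y).symm⟩

/-- **Prescribed coverage for all large indices.** -/
theorem all_large (k : ℕ) (v : YY α k → ℤ) (s : XX α → ℚ)
    (hs : ∀ y, (v y : ℚ) = ∑ x, s x * (col k x y : ℚ)) :
    ∃ L : ℕ, ∀ lam : ℕ, L ≤ lam → ∃ m : XX α → ℕ, ∀ y : YY α k,
      ∑ x, (m x : ℤ) * col k x y = v y + lam := by
  classical
  obtain ⟨μ, hμ⟩ := signed (α := α) k
  obtain ⟨ν, hν⟩ := integrality k v s hs
  rcases isEmpty_or_nonempty (YY α k) with h | ⟨⟨y₀⟩⟩
  · exact ⟨0, fun lam _ => ⟨fun _ => 0, fun y => (h.false y).elim⟩⟩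
  have hM := sum_col_pos y₀
  obtain ⟨M, hMd⟩ : ∃ M : ℕ, (M : ℤ) = ∑ x, col k x y₀ :=
    ⟨(∑ x, col k x y₀).toNat, Int.toNat_of_nonneg hM.le⟩
  rw [← hMd] at hM
  have hM0 : 0 < M := by exact_mod_cast hM
  obtain ⟨b, hb⟩ : ∃ b : ℕ, ∀ x, (μ x).natAbs ≤ b :=
    ⟨∑ x, (μ x).natAbs, fun x => Finset.single_le_sum (f := fun x => (μ x).natAbs)
      (fun _ _ => Nat.zero_le _) (mem_univ x)⟩
  obtain ⟨b', hb'⟩ : ∃ b : ℕ, ∀ x, (ν x).natAbs ≤ b :=
    ⟨∑ x, (ν x).natAbs, fun x => Finset.single_le_sum (f := fun x => (ν x).natAbs)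
      (fun _ _ => Nat.zero_le _) (mem_univ x)⟩
  refine ⟨M * (M * b + b'), fun lam hlam => ?_⟩
  obtain ⟨q, hq⟩ : ∃ q, q = lam / M := ⟨_, rfl⟩
  obtain ⟨r, hr⟩ : ∃ r, r = lam % M := ⟨_, rfl⟩
  have hqr : M * q + r = lam := by rw [hq, hr]; exact Nat.div_add_mod lam M
  have hrM : r < M := by rw [hr]; exact Nat.mod_lt _ hM0
  have hqb : M * b + b' ≤ q := by
    rw [hq, Nat.le_div_iff_mul_le hM0, mul_comm]
    exact hlam
  have hnn : ∀ x, 0 ≤ (q : ℤ) + r * μ x + ν x := by
    intro x
    have h1 : |(r : ℤ) * μ x| ≤ M * b := by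
      rw [abs_mul, Nat.abs_cast, ← Int.natCast_natAbs]
      have h2 : r * (μ x).natAbs ≤ M * b := Nat.mul_le_mul hrM.le (hb x)
      exact_mod_cast h2
    have h3 := neg_abs_le ((r : ℤ) * μ x)
    have h5 : |ν x| ≤ b' := by
      rw [← Int.natCast_natAbs]
      exact_mod_cast hb' x
    have h6 := neg_abs_le (ν x)
    have h4 : ((M * b + b' : ℕ) : ℤ) ≤ q := by exact_mod_cast hqb
    push_cast at h4
    linarith
  refine ⟨fun x => ((q : ℤ) + r * μ x + ν x).toNat, fun y => ?_⟩
  have h1 : ∀ x, ((((q : ℤ) + r * μ x + ν x).toNat : ℕ) : ℤ) * col k x y =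
      q * col k x y + r * (μ x * col k x y) + ν x * col k x y := by
    intro x
    rw [Int.toNat_of_nonneg (hnn x)]
    ring
  simp only [h1]
  rw [Finset.sum_add_distrib, Finset.sum_add_distrib, ← Finset.mul_sum, ← Finset.mul_sum, hμ y,
    ← sum_col_eq y₀ y, ← hMd, ← hν y, ← hqr]
  push_cast
  ring

/-! ## Permutations as sequences -/

/-- the sequence of a permutation -/
def seq {n : ℕ} (σ : Equiv.Perm (Fin n)) : XX (Fin n) := ⟨List.ofFn σ,
  List.nodup_ofFn.2 σ.injective, by
    ext c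
    simp only [List.mem_toFinset, List.mem_ofFn, mem_univ, iff_true]
    exact ⟨σ.symm c, by simp⟩⟩

theorem seq_bijective {n : ℕ} : Function.Bijective (seq : Equiv.Perm (Fin n) → XX (Fin n)) := by
  constructor
  · intro σ τ h
    have h1 := List.ofFn_injective (congrArg Subtype.val h)
    exact DFunLike.coe_injective h1
  · rintro ⟨x, hx⟩
    have hl : x.length = n := by
      rw [Ord.length hx, Fintype.card_fin]
    obtain ⟨f, hf⟩ : ∃ f : Fin n → Fin n, List.ofFn f = x :=
      ⟨fun i => x.get (i.cast hl.symm), by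
        apply List.ext_get
        · simp [hl]
        · intro i h1 h2
          simp⟩
    have hinj : Function.Injective f := by
      rw [← List.nodup_ofFn, hf]
      exact hx.1
    refine ⟨Equiv.ofBijective f (Finite.injective_iff_bijective.1 hinj), ?_⟩
    apply Subtype.ext
    exact hf

end Pool.Agent.J6H74.PS
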