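import Pool.Agent.J6H74.PS.Pure

/-!
# Integral combinations of permutations with prescribed coverage
-/

set_option autoImplicit false

namespace Pool.Agent.J6H74.PS

open Finset

variable {α : Type} [DecidableEq α] [Fintype α]

/-- the orders of the whole set -/
abbrev XX (α : Type) [DecidableEq α] [Fintype α] : Type :=
  {x : List α // Ord (Finset.univ : Finset α) x}

/-- the sequences of `k` distinct elements -/
abbrev YY (α : Type) (k : ℕ) : Type := {y : List α // y.Nodup ∧ y.length = k}

noncomputable instance instY (k : ℕ) : Fintype (YY α k) := by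
  have h : {y : List α | y.Nodup ∧ y.length = k}.Finite :=
    (List.finite_length_eq α k).subset fun y hy => hy.2
  exact h.fintype

theorem Ord.length {x : List α} (hx : Ord (Finset.univ : Finset α) x) :
    x.length = Fintype.card α := by
  rw [← List.toFinset_card_of_nodup hx.1, hx.2, Finset.card_univ]

noncomputable instance instX : Fintype (XX α) := by
  have h : {x : List α | Ord (Finset.univ : Finset α) x}.Finite :=
    (List.finite_length_eq α (Fintype.card α)).subset fun y hy => Ord.length hy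
  exact h.fintype

omit [Fintype α] in
theorem sub_filter {x y : List α} (h : y.Sublist x) (hx : x.Nodup) :
    x.filter (fun c => c ∈ y) = y := by
  induction h with
  | slnil => rfl
  | @cons y x a h ih =>
    rw [List.nodup_cons] at hx
    have ha : a ∉ y := fun h' => hx.1 (h.subset h')
    rw [List.filter_cons, if_neg (by simpa using ha), ih hx.2]
  | @cons_cons y x a h ih =>
    rw [List.nodup_cons] at hx
    rw [List.filter_cons, if_pos (by simp)]
    congr 1
    have h1 : x.filter (fun c => c ∈ a :: y) = x.filter (fun c => c ∈ y) := by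
      apply List.filter_congr
      intro c hc
      have hca : c ≠ a := fun h' => hx.1 (h' ▸ hc)
      simp [hca]
    rw [h1, ih hx.2]

open Classical in
/-- the column of `x` -/
noncomputable def col (k : ℕ) (x : XX α) (y : YY α k) : ℤ := if y.1.Sublist x.1 then 1 else 0

/-- extension by zero -/
noncomputable def ext {A : Type} [AddCommMonoid A] {k : ℕ} (a : YY α k → A) (l : List α) : A := by
  classical exact if h : l.Nodup ∧ l.length = k then a ⟨l, h⟩ else 0

open Classical in
theorem Fs_eq {A : Type} [AddCommMonoid A] {k : ℕ} (b : List α → A) (x : XX α) :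
    Fs k Finset.univ ∅ b x.1 = ∑ y : YY α k, if y.1.Sublist x.1 then b y.1 else 0 := by
  rw [← Finset.sum_filter]
  unfold Fs
  have hT : ∀ T ∈ idx k (Finset.univ : Finset α) ∅,
      (x.1.filter (fun c => c ∈ T)).Nodup ∧ (x.1.filter (fun c => c ∈ T)).length = k := by
    intro T hT
    rw [mem_idx] at hT
    have h1 := x.2.1.filter (fun c => c ∈ T)
    refine ⟨h1, ?_⟩
    rw [← List.toFinset_card_of_nodup h1, x.2.filter hT.1, hT.2.1]
  refine Finset.sum_bij' (fun T hT' => (⟨_, hT T hT'⟩ : YY α k)) (fun y _ => y.1.toFinset)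
    ?_ ?_ ?_ ?_ ?_
  · intro T _
    rw [mem_filter]
    exact ⟨mem_univ _, List.filter_sublist⟩
  · intro y _
    rw [mem_idx]
    refine ⟨subset_univ _, ?_, empty_subset _⟩
    rw [List.toFinset_card_of_nodup y.2.1, y.2.2]
  · intro T hT'
    rw [mem_idx] at hT'
    exact x.2.filter hT'.1
  · intro y hy
    rw [mem_filter] at hy
    apply Subtype.ext
    change x.1.filter (fun c => c ∈ y.1.toFinset) = y.1
    rw [← sub_filter hy.2 x.2.1]
    apply List.filter_congr
    intro c _
    rw [sub_filter hy.2 x.2.1]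
    simp
  · intro T _
    rfl

/-- **Integrality.** A vector of integers which is a rational combination of the columns is an
integral combination of the columns. -/
theorem integrality (k : ℕ) (v : YY α k → ℤ) (r : XX α → ℚ)
    (hr : ∀ y, (v y : ℚ) = ∑ x, r x * (col k x y : ℚ)) :
    ∃ μ : XX α → ℤ, ∀ y, v y = ∑ x, μ x * col k x y := by
  classical
  obtain ⟨L, hL⟩ : ∃ L, L = Submodule.span ℤ (Set.range (fun x : XX α => col k x)) := ⟨_, rfl⟩
  suffices h : v ∈ L by
    rw [hL, Submodule.mem_span_range_iff_exists_fun] at h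
    obtain ⟨μ, hμ⟩ := h
    refine ⟨μ, fun y => ?_⟩
    rw [← hμ]
    simp [Finset.sum_apply]
  by_contra hv
  have hne : (Submodule.Quotient.mk v : (YY α k → ℤ) ⧸ L) ≠ 0 := fun h =>
    hv ((Submodule.Quotient.mk_eq_zero L).1 h)
  obtain ⟨χ, hχ⟩ := CharacterModule.exists_character_apply_ne_zero_of_ne_zero hne
  -- rational lifts
  have hlift : ∀ y : YY α k, ∃ q : ℚ, ((q : ℚ) : AddCircle (1 : ℚ)) =
      χ (Submodule.Quotient.mk (Pi.single y (1 : ℤ))) := fun y =>
    QuotientAddGroup.mk_surjective _
  choose a ha using hlift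
  have hval : ∀ f : YY α k → ℤ, χ (Submodule.Quotient.mk f) =
      ((∑ y, (f y : ℚ) * a y : ℚ) : AddCircle (1 : ℚ)) := by
    intro f
    have h1 : f = ∑ y, f y • (Pi.single y (1 : ℤ) : YY α k → ℤ) := by
      funext y
      rw [Finset.sum_apply, Finset.sum_eq_single y]
      · simp
      · intro y' _ h
        rw [Pi.smul_apply, Pi.single_eq_of_ne (Ne.symm h), smul_zero]
      · intro h
        exact absurd (mem_univ y) h
    have h2 : (Submodule.Quotient.mk f : (YY α k → ℤ) ⧸ L) =
        ∑ y, f y • Submodule.Quotient.mk (Pi.single y (1 : ℤ)) := by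
      conv_lhs => rw [h1]
      rw [← Submodule.mkQ_apply, map_sum]
      refine Finset.sum_congr rfl fun y _ => ?_
      rw [map_smul, Submodule.mkQ_apply]
    rw [h2, map_sum]
    have h3 : ((∑ y, (f y : ℚ) * a y : ℚ) : AddCircle (1 : ℚ)) =
        ∑ y, (((f y : ℚ) * a y : ℚ) : AddCircle (1 : ℚ)) :=
      map_sum (QuotientAddGroup.mk' (AddSubgroup.zmultiples (1 : ℚ))) _ _
    rw [h3]
    refine Finset.sum_congr rfl fun y _ => ?_
    rw [map_zsmul, ← ha y, ← zsmul_eq_mul]
    rfl
  -- integral values
  have hint : ∀ x, Ord (Finset.univ : Finset α) x → ∃ m : ℤ, Fs k Finset.univ ∅ (ext a) x = m := by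
    intro x hx
    have h1 := hval (col k ⟨x, hx⟩)
    have h2 : (Submodule.Quotient.mk (col k ⟨x, hx⟩) : (YY α k → ℤ) ⧸ L) = 0 := by
      rw [Submodule.Quotient.mk_eq_zero, hL]
      exact Submodule.subset_span ⟨⟨x, hx⟩, rfl⟩
    rw [h2, map_zero] at h1
    obtain ⟨m, hm⟩ := (AddCircle.coe_eq_zero_iff (1 : ℚ)).1 h1.symm
    refine ⟨m, ?_⟩
    have h3 := Fs_eq (k := k) (ext a) (⟨x, hx⟩ : XX α)
    rw [h3]
    have h4 : (m : ℚ) = m • (1 : ℚ) := by simp
    rw [h4, hm]
    refine Finset.sum_congr rfl fun y _ => ?_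
    have h5 : ext a y.1 = a y := by
      unfold ext
      rw [dif_pos y.2]
    rw [h5]
    unfold col
    split_ifs <;> simp
  obtain ⟨b, hb⟩ := pure_main _ (Finset.univ : Finset α) rfl ∅ k (ext a) (empty_subset _) hint
  -- the value at `v`
  apply hχ
  rw [hval]
  have h1 : ∀ (a' : YY α k → ℚ), ∑ y, (v y : ℚ) * a' y = ∑ x : XX α, r x *
      ∑ y : YY α k, (col k x y : ℚ) * a' y := by
    intro a'
    simp only [hr, Finset.sum_mul, Finset.mul_sum]
    rw [Finset.sum_comm]
    refine Finset.sum_congr rfl fun x _ => Finset.sum_congr rfl fun y _ => ?_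
    ring
  have h2 : ∀ x : XX α, ∑ y : YY α k, (col k x y : ℚ) * a y =
      ∑ y : YY α k, (col k x y : ℚ) * ((b y.1 : ℤ) : ℚ) := by
    intro x
    have h3 := hb x.1 x.2
    rw [Fs_eq, Fs_eq] at h3
    push_cast at h3
    have h4 : ∀ y : YY α k, (col k x y : ℚ) * a y = if y.1.Sublist x.1 then ext a y.1 else 0 := by
      intro y
      have h5 : ext a y.1 = a y := by
        unfold ext
        rw [dif_pos y.2]
      rw [h5]
      unfold col
      split_ifs <;> simp
    have h6 : ∀ y : YY α k, (col k x y : ℚ) * ((b y.1 : ℤ) : ℚ) =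
        if y.1.Sublist x.1 then ((b y.1 : ℤ) : ℚ) else 0 := by
      intro y
      unfold col
      split_ifs <;> simp
    simp only [h4, h6]
    exact h3
  have h7 : ∑ y, (v y : ℚ) * a y = ((∑ y, v y * b y.1 : ℤ) : ℚ) := by
    rw [h1 a]
    simp only [h2]
    rw [← h1 (fun y => ((b y.1 : ℤ) : ℚ))]
    push_cast
    rfl
  rw [h7, AddCircle.coe_eq_zero_iff]
  exact ⟨∑ y, v y * b y.1, by rw [zsmul_eq_mul, mul_one]⟩

end Pool.Agent.J6H74.PS
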