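import Pool.Agent.J6H74.PS.Round2
import Pool.Agent.J6H74.PS.All

/-!
# The proximity theorem and the explicit bound
-/

set_option autoImplicit false

namespace Pool.Agent.J6H74.PS

open Finset

variable {α : Type} [DecidableEq α]

theorem card_ords (X : Finset α) : (ords X).card = X.card.factorial := by
  unfold ords
  rw [← Finset.coe_toList X, Multiset.lists_coe]
  have h1 : (X.toList.permutations).Nodup := List.nodup_permutations _ X.nodup_toList
  have h2 : Multiset.toFinset (X.toList.permutations : Multiset (List α)) =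
      X.toList.permutations.toFinset := rfl
  rw [h2, List.toFinset_card_of_nodup h1, List.length_permutations, Finset.length_toList]

variable [Fintype α]

theorem sum_XX {A : Type} [AddCommMonoid A] (f : List α → A) :
    ∑ x ∈ ords (Finset.univ : Finset α), f x = ∑ x : XX α, f x.1 :=
  Finset.sum_subtype _ (fun _ => mem_ords) f

theorem card_XX : Fintype.card (XX α) = (Fintype.card α).factorial := by
  rw [← Finset.card_univ (α := α), ← card_ords, ← Finset.card_univ, Finset.card_eq_sum_ones,
    Finset.card_eq_sum_ones, sum_XX]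

/-- the number of orders covering a sequence -/
theorem mul_factorial {k : ℕ} (y₀ : YY α k) :
    (∑ x, col k x y₀) * (k.factorial : ℤ) = (Fintype.card α).factorial := by
  classical
  obtain ⟨T, hT⟩ : ∃ T, T = y₀.1.toFinset := ⟨_, rfl⟩
  have hTk : T.card = k := by rw [hT, List.toFinset_card_of_nodup y₀.2.1, y₀.2.2]
  have h1 : ∀ y ∈ ords T, ∑ x ∈ ords (Finset.univ : Finset α),
      (if y.Sublist x then (1 : ℤ) else 0) = ∑ x, col k x y₀ := by
    intro y hy
    have hy' := mem_ords.1 hy
    have hyk : y.length = k := by rw [← List.toFinset_card_of_nodup hy'.1, hy'.2, hTk]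
    rw [sum_col_eq y₀ ⟨y, hy'.1, hyk⟩, sum_XX]
    rfl
  have h2 : ∑ y ∈ ords T, ∑ x ∈ ords (Finset.univ : Finset α),
      (if y.Sublist x then (1 : ℤ) else 0) = ∑ x ∈ ords (Finset.univ : Finset α), 1 := by
    rw [Finset.sum_comm]
    refine Finset.sum_congr rfl fun x hx => ?_
    have hx' := mem_ords.1 hx
    rw [Finset.sum_eq_single (x.filter (fun c => c ∈ T))]
    · rw [if_pos List.filter_sublist]
    · intro y hy hne
      rw [if_neg]
      intro hyx
      apply hne
      have h3 := sub_filter hyx hx'.1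
      rw [← h3]
      apply List.filter_congr
      intro c _
      have h4 : c ∈ y ↔ c ∈ T := by rw [← (mem_ords.1 hy).2, List.mem_toFinset]
      simp [h4]
    · intro h
      exact absurd (mem_ords.2 ⟨hx'.1.filter _, hx'.filter (subset_univ _)⟩) h
  rw [Finset.sum_congr rfl h1, Finset.sum_const, card_ords, hTk, Finset.sum_const, card_ords,
    Finset.card_univ] at h2
  simp only [nsmul_eq_mul, mul_one] at h2
  rw [mul_comm]
  exact h2

/-- **Proximity.** Rational weights with integral coverage numbers can be rounded to integral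
weights with the same coverage numbers; each weight changes by at most `err n k / 2`. -/
theorem proximity {n : ℕ} (hn : Fintype.card α = n + 1) {k : ℕ} (hk : 1 ≤ k) (r : XX α → ℚ)
    (v : YY α k → ℤ) (hv : ∀ y, (v y : ℚ) = ∑ x, r x * (col k x y : ℚ)) :
    ∃ m : XX α → ℤ, (∀ x, |r x - m x| ≤ (err n k : ℚ) / 2) ∧ ∀ y, v y = ∑ x, m x * col k x y := by
  classical
  obtain ⟨μ, hμ⟩ := integrality k v r hv
  obtain ⟨κ, hκ⟩ : ∃ κ : List α → ℚ, κ = fun l => if h : Ord (Finset.univ : Finset α) l then
    r ⟨l, h⟩ - μ ⟨l, h⟩ else 0 := ⟨_, rfl⟩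
  have hκx : ∀ x : XX α, κ x.1 = r x - μ x := by
    intro x
    rw [hκ]
    simp only
    rw [dif_pos x.2]
  have hker : Ker k (Finset.univ : Finset α) ∅ κ := by
    intro a
    rw [sum_XX (fun x => κ x * Fs k Finset.univ ∅ a x)]
    have h1 : ∀ x : XX α, κ x.1 * Fs k Finset.univ ∅ a x.1 =
        ∑ y : YY α k, a y.1 * (r x * (col k x y : ℚ) - μ x * (col k x y : ℚ)) := by
      intro x
      rw [Fs_eq, hκx, Finset.mul_sum]
      refine Finset.sum_congr rfl fun y _ => ?_
      unfold col
      split_ifs
      · push_cast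
        ring
      · simp
    rw [Finset.sum_congr rfl fun x _ => h1 x, Finset.sum_comm]
    refine Finset.sum_eq_zero fun y _ => ?_
    rw [← Finset.mul_sum, Finset.sum_sub_distrib, ← hv y]
    have h2 := hμ y
    have h3 : (v y : ℚ) = ∑ x, (μ x : ℚ) * (col k x y : ℚ) := by
      rw [h2]
      push_cast
      rfl
    rw [h3, sub_self, mul_zero]
  obtain ⟨κ', h1, h2⟩ := rounding n (Finset.univ : Finset α) (by rw [Finset.card_univ, hn]) ∅ k
    (empty_subset _) (Or.inr hk) κ hker
  refine ⟨fun x => μ x + κ' x.1, fun x => ?_, fun y => ?_⟩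
  · have h3 := h2 x.1 (mem_ords.2 x.2)
    rw [hκx] at h3
    have h4 : r x - ((μ x + κ' x.1 : ℤ) : ℚ) = r x - μ x - κ' x.1 := by
      push_cast
      ring
    rw [h4]
    exact h3
  · have h3 := h1 (fun l => if l = y.1 then 1 else 0)
    rw [sum_XX (fun x => (κ' x : ℚ) * Fs k Finset.univ ∅ (fun l => if l = y.1 then (1 : ℚ) else 0)
      x)] at h3
    have h4 : ∀ x : XX α, (κ' x.1 : ℚ) * Fs k Finset.univ ∅
        (fun l => if l = y.1 then (1 : ℚ) else 0) x.1 = κ' x.1 * (col k x y : ℚ) := by
      intro x
      rw [Fs_eq, Finset.sum_eq_single y]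
      · unfold col
        by_cases h : y.1.Sublist x.1 <;> simp [h]
      · intro y' _ hne
        have h5 : ¬ y'.1 = y.1 := fun h => hne (Subtype.ext h)
        simp [h5]
      · intro h
        exact absurd (mem_univ y) h
    rw [Finset.sum_congr rfl fun x _ => h4 x] at h3
    have h5 : ∑ x : XX α, κ' x.1 * col k x y = 0 := by exact_mod_cast h3
    simp only [add_mul]
    rw [Finset.sum_add_distrib, h5, add_zero]
    exact hμ y

end Pool.Agent.J6H74.PS
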