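import Mathlib

/-!
# Functions of the relative orders of `k` elements

`Fs k X N a x = ∑ a (x restricted to T)`, the sum over the `k`-subsets `T` of `X` with `N ⊆ T`. If such a
function with rational `a` has integral values at all orders `x` of `X` then it is such a function with
integral `a`.
-/

set_option autoImplicit false

namespace Pool.Agent.J6H74.PS

open Finset

variable {α : Type} [DecidableEq α]

/-- the index set -/
def idx (k : ℕ) (X N : Finset α) : Finset (Finset α) := (X.powersetCard k).filter (fun T => N ⊆ T)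

/-- the sum of the values of `a` at the restrictions of `x` -/
def Fs {A : Type} [AddCommMonoid A] (k : ℕ) (X N : Finset α) (a : List α → A) (x : List α) : A :=
  ∑ T ∈ idx k X N, a (x.filter (fun c => c ∈ T))

/-- orders of `X` -/
def Ord (X : Finset α) (x : List α) : Prop := x.Nodup ∧ x.toFinset = X

theorem mem_idx {k : ℕ} {X N T : Finset α} : T ∈ idx k X N ↔ T ⊆ X ∧ T.card = k ∧ N ⊆ T := by
  unfold idx
  rw [mem_filter, mem_powersetCard, and_assoc]

/-- `z` inserted after `u` -/
def aft (z u : α) (l : List α) : List α := l.flatMap (fun c => if c = u then [u, z] else [c])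

/-- `z` inserted before `u` -/
def bef (z u : α) (l : List α) : List α := l.flatMap (fun c => if c = u then [z, u] else [c])

theorem aft_cons (z u c : α) (l : List α) :
    aft z u (c :: l) = (if c = u then [u, z] else [c]) ++ aft z u l := rfl

theorem bef_cons (z u c : α) (l : List α) :
    bef z u (c :: l) = (if c = u then [z, u] else [c]) ++ bef z u l := rfl

theorem aft_not {z u : α} {l : List α} (h : u ∉ l) : aft z u l = l := by
  induction l with
  | nil => rfl
  | cons c l ih =>
    rw [List.mem_cons, not_or] at h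
    rw [aft_cons, ih h.2, if_neg (Ne.symm h.1)]
    rfl

theorem bef_not {z u : α} {l : List α} (h : u ∉ l) : bef z u l = l := by
  induction l with
  | nil => rfl
  | cons c l ih =>
    rw [List.mem_cons, not_or] at h
    rw [bef_cons, ih h.2, if_neg (Ne.symm h.1)]
    rfl

theorem aft_split {z u : α} {p s : List α} (hp : u ∉ p) (hs : u ∉ s) :
    aft z u (p ++ u :: s) = p ++ u :: z :: s := by
  induction p with
  | nil =>
    rw [List.nil_append, aft_cons, if_pos rfl, aft_not hs]
    rfl
  | cons c p ih =>
    rw [List.mem_cons, not_or] at hp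
    rw [List.cons_append, aft_cons, ih hp.2, if_neg (Ne.symm hp.1)]
    rfl

theorem bef_split {z u : α} {p s : List α} (hp : u ∉ p) (hs : u ∉ s) :
    bef z u (p ++ u :: s) = p ++ z :: u :: s := by
  induction p with
  | nil =>
    rw [List.nil_append, bef_cons, if_pos rfl, bef_not hs]
    rfl
  | cons c p ih =>
    rw [List.mem_cons, not_or] at hp
    rw [List.cons_append, bef_cons, ih hp.2, if_neg (Ne.symm hp.1)]
    rfl

theorem aft_filter_not {z u : α} {T : Finset α} (hz : z ∉ T) (l : List α) :
    (aft z u l).filter (fun c => c ∈ T) = l.filter (fun c => c ∈ T) := by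
  induction l with
  | nil => rfl
  | cons c l ih =>
    rw [aft_cons, List.filter_append, ih]
    by_cases h : c = u
    · subst h
      by_cases h2 : c ∈ T <;> simp [hz, h2]
    · by_cases h2 : c ∈ T <;> simp [h, h2]

theorem bef_filter_not {z u : α} {T : Finset α} (hz : z ∉ T) (l : List α) :
    (bef z u l).filter (fun c => c ∈ T) = l.filter (fun c => c ∈ T) := by
  induction l with
  | nil => rfl
  | cons c l ih =>
    rw [bef_cons, List.filter_append, ih]
    by_cases h : c = u
    · subst h
      by_cases h2 : c ∈ T <;> simp [hz, h2]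
    · by_cases h2 : c ∈ T <;> simp [h, h2]

theorem aft_bef_filter {z u : α} {T : Finset α} (hu : u ∉ T) (l : List α) :
    (aft z u l).filter (fun c => c ∈ T) = (bef z u l).filter (fun c => c ∈ T) := by
  induction l with
  | nil => rfl
  | cons c l ih =>
    rw [bef_cons, aft_cons, List.filter_append, List.filter_append, ih]
    by_cases h : c = u
    · subst h
      by_cases h2 : z ∈ T <;> simp [hu, h2]
    · simp [h]

theorem aft_filter {z u : α} {T : Finset α} (hz : z ∈ T) (hu : u ∈ T) (huz : u ≠ z) {l : List α}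
    (hl : z ∉ l) :
    (aft z u l).filter (fun c => c ∈ T) = aft z u (l.filter (fun c => c ∈ T.erase z)) := by
  induction l with
  | nil => rfl
  | cons c l ih =>
    rw [List.mem_cons, not_or] at hl
    rw [aft_cons, List.filter_append, ih hl.2]
    by_cases h : c = u
    · subst h
      simp [hz, hu, huz, aft_cons]
    · have hcz : c ≠ z := Ne.symm hl.1
      by_cases h2 : c ∈ T
      · simp [h, h2, hcz, aft_cons]
      · simp [h, h2]

theorem bef_filter {z u : α} {T : Finset α} (hz : z ∈ T) (hu : u ∈ T) (huz : u ≠ z) {l : List α}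
    (hl : z ∉ l) :
    (bef z u l).filter (fun c => c ∈ T) = bef z u (l.filter (fun c => c ∈ T.erase z)) := by
  induction l with
  | nil => rfl
  | cons c l ih =>
    rw [List.mem_cons, not_or] at hl
    rw [bef_cons, List.filter_append, ih hl.2]
    by_cases h : c = u
    · subst h
      simp [hz, hu, huz, bef_cons]
    · have hcz : c ≠ z := Ne.symm hl.1
      by_cases h2 : c ∈ T
      · simp [h, h2, hcz, bef_cons]
      · simp [h, h2]

/-- the sets with `z` -/
theorem sum_idx_mem {A : Type} [AddCommMonoid A] {k : ℕ} {X N : Finset α} {z : α} (hz : z ∈ X)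
    (hzN : z ∉ N) (hk : 1 ≤ k) (M : Finset α) (hM : z ∉ M) (f : Finset α → A) :
    ∑ T ∈ (idx k X N).filter (fun T => z ∈ T ∧ M ⊆ T), f T =
      ∑ T ∈ idx (k - 1) (X.erase z) (M ∪ N), f (insert z T) := by
  symm
  refine Finset.sum_bij' (fun T _ => insert z T) (fun T _ => T.erase z) ?_ ?_ ?_ ?_ ?_
  · intro T hT
    rw [mem_idx] at hT
    have hzT : z ∉ T := fun h => (mem_erase.1 (hT.1 h)).1 rfl
    rw [mem_filter, mem_idx]
    refine ⟨⟨?_, ?_, ?_⟩, mem_insert_self _ _, ?_⟩
    · exact insert_subset hz (hT.1.trans (erase_subset _ _))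
    · rw [card_insert_of_notMem hzT, hT.2.1]; omega
    · exact (subset_union_right.trans hT.2.2).trans (subset_insert _ _)
    · exact (subset_union_left.trans hT.2.2).trans (subset_insert _ _)
  · intro T hT
    rw [mem_filter, mem_idx] at hT
    rw [mem_idx]
    refine ⟨erase_subset_erase _ hT.1.1, ?_, ?_⟩
    · rw [card_erase_of_mem hT.2.1, hT.1.2.1]
    · rw [subset_erase]
      refine ⟨union_subset hT.2.2 hT.1.2.2, ?_⟩
      rw [mem_union]
      rintro (h | h)
      · exact hM h
      · exact hzN h
  · intro T hT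
    rw [mem_idx] at hT
    have hzT : z ∉ T := fun h => (mem_erase.1 (hT.1 h)).1 rfl
    exact erase_insert hzT
  · intro T hT
    rw [mem_filter] at hT
    exact insert_erase hT.2.1
  · intro T _
    rfl

/-- the difference when `z` passes `u` -/
theorem diff_eq {A : Type} [AddCommGroup A] {k : ℕ} {X N : Finset α} {z u : α} (hz : z ∈ X)
    (hzN : z ∉ N) (hk : 1 ≤ k) (huz : u ≠ z) (a : List α → A) {w : List α} (hw : z ∉ w) :
    Fs k X N a (aft z u w) - Fs k X N a (bef z u w) =
      Fs (k - 1) (X.erase z) (insert u N) (fun l => a (aft z u l) - a (bef z u l)) w := by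
  unfold Fs
  rw [← Finset.sum_sub_distrib]
  have h1 := sum_idx_mem (A := A) hz hzN hk {u} (by simpa using Ne.symm huz)
    (fun T => a ((aft z u w).filter (fun c => c ∈ T)) - a ((bef z u w).filter (fun c => c ∈ T)))
  rw [← Finset.insert_eq u N] at h1
  rw [Finset.sum_filter_of_ne] at h1
  · rw [h1]
    refine Finset.sum_congr rfl fun T hT => ?_
    rw [mem_idx] at hT
    have hzT : z ∉ T := fun h => (mem_erase.1 (hT.1 h)).1 rfl
    have huT : u ∈ T := hT.2.2 (mem_insert_self _ _)
    rw [aft_filter (mem_insert_self z T) (mem_insert_of_mem huT) huz hw,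
      bef_filter (mem_insert_self z T) (mem_insert_of_mem huT) huz hw, erase_insert hzT]
  · intro T _ hne
    constructor
    · by_contra h
      exact hne (by rw [aft_filter_not h, bef_filter_not h, sub_self])
    · rw [singleton_subset_iff]
      by_contra h
      exact hne (by rw [aft_bef_filter h, sub_self])

/-- telescoping -/
theorem telescope {A : Type} [AddCommGroup A] (f : List α → A) (z : α) (p s : List α)
    (hn : (p ++ s).Nodup) : f (p ++ z :: s) = f (z :: (p ++ s)) +
      (p.map fun u => f (aft z u (p ++ s)) - f (bef z u (p ++ s))).sum := by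
  induction p using List.reverseRecOn generalizing s with
  | nil => simp
  | append_singleton p u ih =>
    have h1 : p ++ [u] ++ s = p ++ u :: s := by simp
    have h2 : p ++ [u] ++ z :: s = p ++ u :: z :: s := by simp
    rw [h1] at hn ⊢
    rw [h2, List.map_append, List.sum_append]
    have h3 := ih (u :: s) hn
    have hu : u ∉ p ∧ u ∉ s := by
      rw [List.nodup_append] at hn
      refine ⟨fun h => hn.2.2 u h u (by simp) rfl, ?_⟩
      exact (List.nodup_cons.1 hn.2.1).1
    simp only [List.map_cons, List.map_nil, List.sum_cons, List.sum_nil, add_zero]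
    rw [aft_split hu.1 hu.2, bef_split hu.1 hu.2, ← add_assoc, ← h3]
    abel

theorem sum_swap {A ι : Type} [AddCommMonoid A] (I : Finset ι) (p : List α) (f : ι → α → A) :
    ∑ T ∈ I, (p.map (f T)).sum = (p.map fun u => ∑ T ∈ I, f T u).sum := by
  induction p with
  | nil => simp
  | cons c p ih => simp only [List.map_cons, List.sum_cons, Finset.sum_add_distrib, ih]

theorem sum_map_filter {A : Type} [AddCommMonoid A] (p : List α) (T : Finset α) (f : α → A) :
    ((p.filter (fun c => c ∈ T)).map f).sum = (p.map fun u => if u ∈ T then f u else 0).sum := by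
  induction p with
  | nil => simp
  | cons c p ih =>
    by_cases h : c ∈ T <;> simp [h, ih]

/-- the sum over the sets with and without `z` -/
theorem split_sum {A : Type} [AddCommMonoid A] {k : ℕ} {X N : Finset α} {z : α} (hz : z ∈ X)
    (hzN : z ∉ N) (hk : 1 ≤ k) (f : Finset α → A) :
    ∑ T ∈ idx k X N, f T = ∑ T ∈ idx k (X.erase z) N, f T +
      ∑ T ∈ idx (k - 1) (X.erase z) N, f (insert z T) := by
  rw [← Finset.sum_filter_add_sum_filter_not (idx k X N) (fun T => z ∈ T), add_comm]
  congr 1
  · apply Finset.sum_congr _ fun _ _ => rfl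
    ext T
    rw [mem_filter, mem_idx, mem_idx, subset_erase]
    tauto
  · have h1 := sum_idx_mem (A := A) hz hzN hk ∅ (by simp) f
    simp only [empty_subset, and_true, empty_union] at h1
    exact h1

/-- the function with prescribed parts -/
theorem build {A : Type} [AddCommGroup A] {k : ℕ} {X N : Finset α} {z : α} (hz : z ∈ X)
    (hzN : z ∉ N) (hk : 1 ≤ k) (b' : List α → A) (bu : α → List α → A) {p s : List α}
    (hp : z ∉ p) (hs : z ∉ s) :
    Fs k X N (fun v => if z ∈ v then ((v.takeWhile (fun c => c ≠ z)).map fun u =>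
      bu u (v.filter (fun c => c ≠ z))).sum else b' v) (p ++ z :: s) =
      Fs k (X.erase z) N b' (p ++ s) +
        (p.map fun u => Fs (k - 1) (X.erase z) (insert u N) (bu u) (p ++ s)).sum := by
  unfold Fs
  rw [split_sum hz hzN hk]
  congr 1
  · refine Finset.sum_congr rfl fun T hT => ?_
    rw [mem_idx] at hT
    have hzT : z ∉ T := fun h => (mem_erase.1 (hT.1 h)).1 rfl
    have h1 : (p ++ z :: s).filter (fun c => c ∈ T) = (p ++ s).filter (fun c => c ∈ T) := by
      simp [hzT]
    rw [h1]
    exact if_neg fun h => hzT (by simpa using (List.mem_filter.1 h).2)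
  · have h2 : ∀ u, ∑ T ∈ idx (k - 1) (X.erase z) (insert u N), bu u ((p ++ s).filter
        (fun c => c ∈ T)) = ∑ T ∈ idx (k - 1) (X.erase z) N, if u ∈ T then bu u ((p ++ s).filter
        (fun c => c ∈ T)) else 0 := by
      intro u
      rw [← Finset.sum_filter]
      apply Finset.sum_congr _ fun _ _ => rfl
      ext T
      rw [mem_filter, mem_idx, mem_idx, insert_subset_iff]
      tauto
    simp only [h2]
    rw [← sum_swap]
    refine Finset.sum_congr rfl fun T hT => ?_
    rw [mem_idx] at hT
    have hzT : z ∉ T := fun h => (mem_erase.1 (hT.1 h)).1 rfl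
    have hf : ∀ l : List α, z ∉ l → l.filter (fun c => c ∈ insert z T) =
        l.filter (fun c => c ∈ T) := by
      intro l hl
      apply List.filter_congr
      intro c hc
      have hcz : c ≠ z := fun h => hl (h ▸ hc)
      simp [hcz]
    have h3 : (p ++ z :: s).filter (fun c => c ∈ insert z T) =
        p.filter (fun c => c ∈ T) ++ z :: s.filter (fun c => c ∈ T) := by
      rw [List.filter_append, List.filter_cons, hf p hp, hf s hs]
      simp
    have h4 : ∀ l : List α, z ∉ l → l.filter (fun c => c ≠ z) = l := by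
      intro l hl
      rw [List.filter_eq_self]
      intro c hc
      have hcz : c ≠ z := fun h => hl (h ▸ hc)
      simpa using hcz
    have hpz : z ∉ p.filter (fun c => c ∈ T) := fun h => hp (List.mem_filter.1 h).1
    have hsz : z ∉ s.filter (fun c => c ∈ T) := fun h => hs (List.mem_filter.1 h).1
    have h5 : (p.filter (fun c => c ∈ T) ++ z :: s.filter (fun c => c ∈ T)).takeWhile
        (fun c => c ≠ z) = p.filter (fun c => c ∈ T) := by
      rw [List.takeWhile_append_of_pos]
      · simp
      · intro c hc
        have hcz : c ≠ z := fun h => hpz (h ▸ hc)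
        simpa using hcz
    have h6 : (p.filter (fun c => c ∈ T) ++ z :: s.filter (fun c => c ∈ T)).filter
        (fun c => c ≠ z) = (p ++ s).filter (fun c => c ∈ T) := by
      rw [List.filter_append, List.filter_cons, h4 _ hpz, h4 _ hsz, List.filter_append]
      simp
    rw [h3, if_pos (by simp), h5, h6, sum_map_filter]

/-- the part with `z` at the beginning -/
theorem first_eq {A : Type} [AddCommMonoid A] {k : ℕ} {X N : Finset α} {z : α} (hz : z ∈ X)
    (hzN : z ∉ N) (hk : 1 ≤ k) (a : List α → A) {w : List α} (hw : z ∉ w) :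
    Fs k X N a (z :: w) = Fs k (X.erase z) N a w +
      ∑ T ∈ idx (k - 1) (X.erase z) N, a (z :: w.filter (fun c => c ∈ T)) := by
  unfold Fs
  rw [split_sum hz hzN hk]
  congr 1
  · refine Finset.sum_congr rfl fun T hT => ?_
    rw [mem_idx] at hT
    have hzT : z ∉ T := fun h => (mem_erase.1 (hT.1 h)).1 rfl
    rw [List.filter_cons, if_neg (by simpa using hzT)]
  · refine Finset.sum_congr rfl fun T hT => ?_
    rw [List.filter_cons, if_pos (by simp)]
    congr 2
    apply List.filter_congr
    intro c hc
    have hcz : c ≠ z := fun h => hw (h ▸ hc)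
    simp [hcz]

/-- double counting -/
theorem double (k : ℕ) (X N : Finset α) (hk : 1 ≤ k) (hkX : k ≤ X.card) (g : Finset α → ℚ) :
    ∑ T ∈ idx k X N, ∑ t ∈ T \ N, g (T.erase t) =
      ((X.card - (k - 1) : ℕ) : ℚ) * ∑ T ∈ idx (k - 1) X N, g T := by
  have h1 : ∀ T ∈ idx (k - 1) X N, ((X.card - (k - 1) : ℕ) : ℚ) * g T = ∑ _t ∈ X \ T, g T := by
    intro T hT
    rw [mem_idx] at hT
    rw [Finset.sum_const, card_sdiff_of_subset hT.1, hT.2.1, nsmul_eq_mul]
  rw [Finset.mul_sum, Finset.sum_congr rfl h1, Finset.sum_sigma', Finset.sum_sigma']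
  refine Finset.sum_bij' (fun q _ => ⟨q.1.erase q.2, q.2⟩) (fun q _ => ⟨insert q.2 q.1, q.2⟩)
    ?_ ?_ ?_ ?_ ?_
  · rintro ⟨T, t⟩ hT
    simp only [mem_sigma, mem_idx, mem_sdiff] at hT ⊢
    obtain ⟨⟨h1, h2, h3⟩, h4, h5⟩ := hT
    refine ⟨⟨(erase_subset _ _).trans h1, ?_, ?_⟩, h1 h4, by simp⟩
    · rw [card_erase_of_mem h4, h2]
    · rw [subset_erase]
      exact ⟨h3, h5⟩
  · rintro ⟨T, t⟩ hT
    simp only [mem_sigma, mem_idx, mem_sdiff] at hT ⊢
    obtain ⟨⟨h1, h2, h3⟩, h4, h5⟩ := hT
    refine ⟨⟨insert_subset h4 h1, ?_, h3.trans (subset_insert _ _)⟩, mem_insert_self _ _,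
      fun h => h5 (h3 h)⟩
    rw [card_insert_of_notMem h5, h2]
    omega
  · rintro ⟨T, t⟩ hT
    simp only [mem_sigma, mem_idx, mem_sdiff] at hT
    simp only [insert_erase hT.2.1]
  · rintro ⟨T, t⟩ hT
    simp only [mem_sigma, mem_idx, mem_sdiff] at hT
    simp only [erase_insert hT.2.2]
  · rintro ⟨T, t⟩ hT
    rfl

/-- restrictions of orders -/
theorem Ord.filter {X T : Finset α} {w : List α} (hw : Ord X w) (hT : T ⊆ X) :
    (w.filter (fun c => c ∈ T)).toFinset = T := by
  ext c
  rw [List.mem_toFinset, List.mem_filter]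
  have h1 : c ∈ w ↔ c ∈ X := by rw [← hw.2, List.mem_toFinset]
  constructor
  · intro h
    simpa using h.2
  · intro h
    exact ⟨h1.2 (hT h), by simpa using h⟩

/-- lower degree is a rational combination -/
theorem raise (k : ℕ) (X N : Finset α) (hk : 1 ≤ k) (hkX : k ≤ X.card) (g : List α → ℚ)
    {w : List α} (hw : Ord X w) :
    ∑ T ∈ idx (k - 1) X N, g (w.filter (fun c => c ∈ T)) =
      Fs k X N (fun l => ((X.card - (k - 1) : ℕ) : ℚ)⁻¹ *
        ∑ t ∈ l.toFinset \ N, g (l.filter (fun c => c ≠ t))) w := by
  have hc : ((X.card - (k - 1) : ℕ) : ℚ) ≠ 0 := by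
    have : X.card - (k - 1) ≠ 0 := by omega
    exact_mod_cast this
  unfold Fs
  have h1 : ∀ T ∈ idx k X N, ((X.card - (k - 1) : ℕ) : ℚ)⁻¹ *
      ∑ t ∈ (w.filter (fun c => c ∈ T)).toFinset \ N,
        g ((w.filter (fun c => c ∈ T)).filter (fun c => c ≠ t)) =
      ((X.card - (k - 1) : ℕ) : ℚ)⁻¹ * ∑ t ∈ T \ N, g (w.filter (fun c => c ∈ T.erase t)) := by
    intro T hT
    rw [mem_idx] at hT
    rw [hw.filter hT.1]
    congr 1
    refine Finset.sum_congr rfl fun t _ => ?_
    congr 1
    rw [List.filter_filter]
    apply List.filter_congr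
    intro c _
    simp [mem_erase]
  rw [Finset.sum_congr rfl h1, ← Finset.mul_sum,
    double k X N hk hkX (fun T => g (w.filter (fun c => c ∈ T))), inv_mul_cancel_left₀ hc]

theorem trivial_case {k : ℕ} {X N : Finset α} (h : (idx k X N).card ≤ 1) (a : List α → ℚ)
    (ha : ∀ x, Ord X x → ∃ m : ℤ, Fs k X N a x = m) :
    ∃ b : List α → ℤ, ∀ x, Ord X x → Fs k X N a x = ((Fs k X N b x : ℤ) : ℚ) := by
  refine ⟨fun l => ⌊a l⌋, fun x hx => ?_⟩
  rw [Finset.card_le_one_iff_subset_singleton] at h
  obtain ⟨T, hT⟩ := h
  rcases Finset.subset_singleton_iff.1 hT with h1 | h1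
  · unfold Fs
    rw [h1]
    simp
  · obtain ⟨m, hm⟩ := ha x hx
    unfold Fs at hm ⊢
    rw [h1, Finset.sum_singleton] at hm ⊢
    rw [Finset.sum_singleton]
    change _ = ((⌊a (x.filter (fun c => c ∈ T))⌋ : ℤ) : ℚ)
    rw [hm, Int.floor_intCast]

/-- **Purity.** -/
theorem pure_main : ∀ (m : ℕ) (X : Finset α), X.card = m → ∀ (N : Finset α) (k : ℕ)
    (a : List α → ℚ), N ⊆ X → (∀ x, Ord X x → ∃ m : ℤ, Fs k X N a x = m) →
    ∃ b : List α → ℤ, ∀ x, Ord X x → Fs k X N a x = ((Fs k X N b x : ℤ) : ℚ) := by
  classical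
  intro m
  induction m with
  | zero =>
    intro X hX N k a hN ha
    apply trivial_case _ a ha
    have h1 : idx k X N ⊆ {∅} := by
      intro T hT
      rw [mem_idx, Finset.card_eq_zero.1 hX, subset_empty] at hT
      rw [mem_singleton]
      exact hT.1
    simpa using Finset.card_le_card h1
  | succ m ih =>
    intro X hX N k a hN ha
    by_cases hk0 : k = 0
    · apply trivial_case _ a ha
      have h1 : idx k X N ⊆ {∅} := by
        intro T hT
        rw [mem_idx, hk0, Finset.card_eq_zero] at hT
        rw [mem_singleton]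
        exact hT.2.1
      simpa using Finset.card_le_card h1
    by_cases hkX : X.card ≤ k
    · apply trivial_case _ a ha
      have h1 : idx k X N ⊆ {X} := by
        intro T hT
        rw [mem_idx] at hT
        rw [mem_singleton]
        exact Finset.eq_of_subset_of_card_le hT.1 (by rw [hT.2.1]; exact hkX)
      simpa using Finset.card_le_card h1
    by_cases hNX : N = X
    · apply trivial_case _ a ha
      have h1 : idx k X N ⊆ {X} := by
        intro T hT
        rw [mem_idx, hNX] at hT
        rw [mem_singleton]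
        exact subset_antisymm hT.1 hT.2.2
      simpa using Finset.card_le_card h1
    have hk : 1 ≤ k := by omega
    obtain ⟨z, hz, hzN⟩ := Finset.exists_of_ssubset (hN.ssubset_of_ne hNX)
    have hX' : (X.erase z).card = m := by rw [card_erase_of_mem hz, hX]; rfl
    have hN' : N ⊆ X.erase z := by
      rw [subset_erase]
      exact ⟨hN, hzN⟩
    -- orders of `X`
    have hcons : ∀ w, Ord (X.erase z) w → z ∉ w := by
      intro w hw h
      have h1 : z ∈ w.toFinset := List.mem_toFinset.2 h
      rw [hw.2] at h1
      exact (mem_erase.1 h1).1 rfl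
    have hins : ∀ p s, Ord (X.erase z) (p ++ s) → Ord X (p ++ z :: s) := by
      intro p s hw
      have hzw := hcons _ hw
      refine ⟨?_, ?_⟩
      · rw [List.nodup_middle, List.nodup_cons]
        exact ⟨hzw, hw.1⟩
      · have h1 : (p ++ z :: s).toFinset = insert z (p ++ s).toFinset := by
          ext c
          simp only [List.mem_toFinset, List.mem_append, List.mem_cons, mem_insert]
          tauto
        rw [h1, hw.2, insert_erase hz]
    -- the part `z` first
    obtain ⟨b', hb'⟩ := ih (X.erase z) hX' N k (fun l => a l +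
      (((X.erase z).card - (k - 1) : ℕ) : ℚ)⁻¹ * ∑ t ∈ l.toFinset \ N,
        a (z :: l.filter (fun c => c ≠ t))) hN' (by
      intro w hw
      have h1 := first_eq hz hzN hk a (hcons w hw)
      rw [raise k (X.erase z) N hk (by omega) (fun l => a (z :: l)) hw] at h1
      obtain ⟨m, hm⟩ := ha (z :: w) (hins [] w hw)
      refine ⟨m, ?_⟩
      rw [← hm, h1]
      unfold Fs
      rw [← Finset.sum_add_distrib])
    have hb'' : ∀ w, Ord (X.erase z) w → Fs k X N a (z :: w) =
        ((Fs k (X.erase z) N b' w : ℤ) : ℚ) := by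
      intro w hw
      rw [← hb' w hw, first_eq hz hzN hk a (hcons w hw),
        raise k (X.erase z) N hk (by omega) (fun l => a (z :: l)) hw]
      unfold Fs
      rw [← Finset.sum_add_distrib]
    -- the differences
    have hD : ∀ u, ∃ bu : List α → ℤ, u ∈ X.erase z → ∀ w, Ord (X.erase z) w →
        Fs k X N a (aft z u w) - Fs k X N a (bef z u w) =
          ((Fs (k - 1) (X.erase z) (insert u N) bu w : ℤ) : ℚ) := by
      intro u
      by_cases hu : u ∈ X.erase z
      · have huz : u ≠ z := (mem_erase.1 hu).1
        obtain ⟨bu, hbu⟩ := ih (X.erase z) hX' (insert u N) (k - 1)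
          (fun l => a (aft z u l) - a (bef z u l)) (insert_subset hu hN') (by
          intro w hw
          rw [← diff_eq hz hzN hk huz a (hcons w hw)]
          have huw : u ∈ w := by
            rw [← List.mem_toFinset, hw.2]
            exact hu
          obtain ⟨p, s, rfl⟩ := List.append_of_mem huw
          have hus : u ∉ p ∧ u ∉ s := by
            have h := hw.1
            rw [List.nodup_middle, List.nodup_cons, List.mem_append, not_or] at h
            exact h.1
          rw [aft_split hus.1 hus.2, bef_split hus.1 hus.2]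
          obtain ⟨m1, hm1⟩ := ha (p ++ u :: z :: s) (by
            have := hins (p ++ [u]) s (by simpa using hw)
            simpa using this)
          obtain ⟨m2, hm2⟩ := ha (p ++ z :: u :: s) (hins p (u :: s) hw)
          exact ⟨m1 - m2, by rw [hm1, hm2]; push_cast; rfl⟩)
        refine ⟨bu, fun _ w hw => ?_⟩
        rw [← hbu w hw, diff_eq hz hzN hk huz a (hcons w hw)]
      · exact ⟨fun _ => 0, fun h => absurd h hu⟩
    choose bu hbu using hD
    refine ⟨fun v => if z ∈ v then ((v.takeWhile (fun c => c ≠ z)).map fun u =>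
      bu u (v.filter (fun c => c ≠ z))).sum else b' v, fun x hx => ?_⟩
    have hzx : z ∈ x := by
      rw [← List.mem_toFinset, hx.2]
      exact hz
    obtain ⟨p, s, rfl⟩ := List.append_of_mem hzx
    have hzps : z ∉ p ∧ z ∉ s := by
      have h := hx.1
      rw [List.nodup_middle, List.nodup_cons, List.mem_append, not_or] at h
      exact h.1
    have hw : Ord (X.erase z) (p ++ s) := by
      refine ⟨?_, ?_⟩
      · have h := hx.1
        rw [List.nodup_middle, List.nodup_cons] at h
        exact h.2
      · rw [← hx.2]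
        ext c
        simp only [List.mem_toFinset, List.mem_append, List.mem_cons, mem_erase]
        constructor
        · intro h
          refine ⟨?_, ?_⟩
          · rintro rfl
            rcases h with h | h
            · exact hzps.1 h
            · exact hzps.2 h
          · tauto
        · tauto
    rw [build hz hzN hk b' bu hzps.1 hzps.2, telescope (Fs k X N a) z p s hw.1, hb'' _ hw]
    push_cast
    congr 1
    rw [List.map_map]
    congr 1
    apply List.map_congr_left
    intro u hu
    have huX : u ∈ X.erase z := by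
      rw [← hw.2, List.mem_toFinset]
      exact List.mem_append_left _ hu
    exact hbu u huX _ hw

end Pool.Agent.J6H74.PS
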