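import Pool.Agent.J6H74.PS.Dual

/-!
# Rounding in the kernel
-/

set_option autoImplicit false

namespace Pool.Agent.J6H74.PS

open Finset

variable {α : Type} [DecidableEq α]

/-- all orders of `X` -/
def ords (X : Finset α) : Finset (List α) := X.val.lists.toFinset

theorem mem_ords {X : Finset α} {x : List α} : x ∈ ords X ↔ Ord X x := by
  unfold ords Ord
  rw [Multiset.mem_toFinset, Multiset.mem_lists_iff]
  constructor
  · intro h
    have h1 : (x : Multiset α).Nodup := by
      have := X.nodup
      rw [h] at this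
      exact this
    refine ⟨Multiset.coe_nodup.1 h1, ?_⟩
    ext c
    rw [List.mem_toFinset, ← Finset.mem_val, h]
    exact (Multiset.mem_coe).symm
  · rintro ⟨h1, rfl⟩
    rw [List.toFinset_val, List.dedup_eq_self.2 h1]
    rfl

/-- the rational relations -/
def Ker (k : ℕ) (X N : Finset α) (κ : List α → ℚ) : Prop :=
  ∀ a : List α → ℚ, ∑ x ∈ ords X, κ x * Fs k X N a x = 0

theorem filter_self {X : Finset α} {x : List α} (hx : Ord X x) :
    x.filter (fun c => c ∈ X) = x := by
  rw [List.filter_eq_self]
  intro c hc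
  rw [← hx.2]
  simpa using hc

theorem trivial_round {k : ℕ} {X N : Finset α} (h : idx k X N ⊆ {X}) (κ : List α → ℚ)
    (hκ : Ker k X N κ) : ∃ κ' : List α → ℤ, Ker k X N (fun x => (κ' x : ℚ)) ∧
      ∀ x ∈ ords X, |κ x - κ' x| ≤ 1 / 2 := by
  rcases Finset.subset_singleton_iff.1 h with h1 | h1
  · refine ⟨fun x => round (κ x), fun a => ?_, fun x _ => abs_sub_round (κ x)⟩
    unfold Fs
    rw [h1]
    simp
  · refine ⟨fun _ => 0, fun a => by simp, fun x hx => ?_⟩
    have h2 := hκ (fun l => if l = x then 1 else 0)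
    have h3 : ∀ y ∈ ords X, κ y * Fs k X N (fun l => if l = x then (1 : ℚ) else 0) y =
        if y = x then κ y else 0 := by
      intro y hy
      unfold Fs
      rw [h1, Finset.sum_singleton, filter_self (mem_ords.1 hy)]
      by_cases h : y = x <;> simp [h]
    rw [Finset.sum_congr rfl h3, Finset.sum_ite_eq' (ords X) x κ, if_pos hx] at h2
    rw [h2]
    norm_num

/-- the positions of `z` -/
theorem split_of_ord {X : Finset α} {z : α} (hz : z ∈ X) {x : List α} (hx : Ord X x) :
    ∃ p s, x = p ++ z :: s ∧ z ∉ p ∧ z ∉ s ∧ Ord (X.erase z) (p ++ s) := by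
  have hzx : z ∈ x := by
    rw [← List.mem_toFinset, hx.2]
    exact hz
  obtain ⟨p, s, rfl⟩ := List.append_of_mem hzx
  have hzps : z ∉ p ∧ z ∉ s := by
    have h := hx.1
    rw [List.nodup_middle, List.nodup_cons, List.mem_append, not_or] at h
    exact h.1
  refine ⟨p, s, rfl, hzps.1, hzps.2, ?_, ?_⟩
  · have h := hx.1
    rw [List.nodup_middle, List.nodup_cons] at h
    exact h.2
  · rw [← hx.2]
    ext c
    simp only [List.mem_toFinset, List.mem_append, List.mem_cons, mem_erase]
    constructor
    · intro h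
      refine ⟨?_, ?_⟩
      · rintro rfl
        rcases h with h | h
        · exact hzps.1 h
        · exact hzps.2 h
      · tauto
    · tauto

theorem ord_ins {X : Finset α} {z : α} (hz : z ∈ X) {p s : List α}
    (hw : Ord (X.erase z) (p ++ s)) : Ord X (p ++ z :: s) := by
  have hzw : z ∉ p ++ s := by
    intro h
    have h1 : z ∈ (p ++ s).toFinset := List.mem_toFinset.2 h
    rw [hw.2] at h1
    exact (mem_erase.1 h1).1 rfl
  refine ⟨?_, ?_⟩
  · rw [List.nodup_middle, List.nodup_cons]
    exact ⟨hzw, hw.1⟩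
  · have h1 : (p ++ z :: s).toFinset = insert z (p ++ s).toFinset := by
      ext c
      simp only [List.mem_toFinset, List.mem_append, List.mem_cons, mem_insert]
      tauto
    rw [h1, hw.2, insert_erase hz]

theorem not_mem_of_ord {X : Finset α} {z : α} {w : List α} (hw : Ord (X.erase z) w) : z ∉ w := by
  intro h
  have h1 : z ∈ w.toFinset := List.mem_toFinset.2 h
  rw [hw.2] at h1
  exact (mem_erase.1 h1).1 rfl

theorem split_at {X : Finset α} {w : List α} (hw : Ord X w) {u : α} (hu : u ∈ X) :
    ∃ p s, w = p ++ u :: s ∧ u ∉ p ∧ u ∉ s := by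
  have huw : u ∈ w := by
    rw [← List.mem_toFinset, hw.2]
    exact hu
  obtain ⟨p, s, rfl⟩ := List.append_of_mem huw
  have h := hw.1
  rw [List.nodup_middle, List.nodup_cons, List.mem_append, not_or] at h
  exact ⟨p, s, rfl, h.1.1, h.1.2⟩

theorem filter_ne {z : α} {l : List α} (h : z ∉ l) : l.filter (fun c => c ≠ z) = l := by
  rw [List.filter_eq_self]
  intro c hc
  have hcz : c ≠ z := fun h' => h (h' ▸ hc)
  simpa using hcz

theorem filter_mid {z : α} {p s : List α} (hp : z ∉ p) (hs : z ∉ s) :
    (p ++ z :: s).filter (fun c => c ≠ z) = p ++ s := by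
  rw [List.filter_append, List.filter_cons, filter_ne hp, filter_ne hs]
  simp

theorem take_mid {z : α} {p s : List α} (hp : z ∉ p) :
    (p ++ z :: s).takeWhile (fun c => c ≠ z) = p := by
  rw [List.takeWhile_append_of_pos]
  · simp
  · intro c hc
    have hcz : c ≠ z := fun h => hp (h ▸ hc)
    simpa using hcz

/-- the images -/
def phi (z : α) (i : Option α × List α) : List α :=
  match i.1 with
  | none => z :: i.2
  | some u => aft z u i.2

/-- the index sets -/
def II (X : Finset α) (z : α) : Finset (Option α × List α) :=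
  (Finset.insertNone (X.erase z)) ×ˢ ords (X.erase z)

/-- the index sets -/
def JJ (X : Finset α) (z : α) : Finset (α × List α) := (X.erase z) ×ˢ ords (X.erase z)

/-- the measure built from parts -/
def recon {A : Type} [AddCommGroup A] (X : Finset α) (z : α) (e : Option α → List α → A)
    (x : List α) : A :=
  ∑ i ∈ II X z, (if phi z i = x then e i.1 i.2 else 0) -
    ∑ j ∈ JJ X z, (if bef z j.1 j.2 = x then e (some j.1) j.2 else 0)

theorem abs_single {ι β : Type} [DecidableEq β] (I : Finset ι) (f : ι → β) (x : β) (e : ι → ℚ)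
    (c : ℚ) (hc : 0 ≤ c) (he : ∀ i ∈ I, |e i| ≤ c)
    (hf : ∀ i ∈ I, ∀ j ∈ I, f i = x → f j = x → i = j) :
    |∑ i ∈ I, (if f i = x then e i else 0)| ≤ c := by
  by_cases h : ∃ i ∈ I, f i = x
  · obtain ⟨i, hi, hix⟩ := h
    rw [Finset.sum_eq_single i]
    · rw [if_pos hix]
      exact he i hi
    · intro j hj hji
      rw [if_neg]
      intro hjx
      exact hji (hf j hj i hi hjx hix)
    · intro h
      exact absurd hi h
  · rw [Finset.sum_eq_zero]
    · simpa using hc
    · intro i hi
      rw [if_neg]
      intro hix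
      exact h ⟨i, hi, hix⟩

theorem phi_ord {X : Finset α} {z : α} (hz : z ∈ X) {i : Option α × List α} (hi : i ∈ II X z) :
    phi z i ∈ ords X := by
  obtain ⟨o, w⟩ := i
  unfold II at hi
  rw [mem_product] at hi
  have hw := mem_ords.1 hi.2
  rw [mem_ords]
  cases o with
  | none => exact ord_ins (p := []) hz hw
  | some u =>
    have hu : u ∈ X.erase z := by simpa using hi.1
    obtain ⟨p, s, h1, h2, h3⟩ := split_at hw hu
    simp only at h1
    subst h1
    unfold phi
    simp only
    rw [aft_split h2 h3]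
    have := ord_ins (p := p ++ [u]) (s := s) hz (by simpa using hw)
    simpa using this

theorem bef_ord {X : Finset α} {z : α} (hz : z ∈ X) {j : α × List α} (hj : j ∈ JJ X z) :
    bef z j.1 j.2 ∈ ords X := by
  obtain ⟨u, w⟩ := j
  unfold JJ at hj
  rw [mem_product] at hj
  have hw := mem_ords.1 hj.2
  rw [mem_ords]
  obtain ⟨p, s, h1, h2, h3⟩ := split_at hw hj.1
  simp only at h1
  subst h1
  simp only
  rw [bef_split h2 h3]
  exact ord_ins (p := p) (s := u :: s) hz hw

theorem phi_inv {X : Finset α} {z : α} {i : Option α × List α} (hi : i ∈ II X z) :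
    i = (((phi z i).takeWhile (fun c => c ≠ z)).getLast?, (phi z i).filter (fun c => c ≠ z)) := by
  obtain ⟨o, w⟩ := i
  unfold II at hi
  rw [mem_product] at hi
  have hw := mem_ords.1 hi.2
  have hzw := not_mem_of_ord hw
  simp only at hw hzw
  cases o with
  | none =>
    unfold phi
    have h1 := take_mid (z := z) (p := []) (s := w) (by simp)
    have h2 := filter_mid (z := z) (p := []) (s := w) (by simp) hzw
    simp only [List.nil_append] at h1 h2
    rw [h1, h2]
    rfl
  | some u =>
    have hu : u ∈ X.erase z := by simpa using hi.1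
    obtain ⟨p, s, h1, h2, h3⟩ := split_at hw hu
    subst h1
    unfold phi
    simp only
    rw [aft_split h2 h3]
    have h0 : z ∉ p ++ [u] := by
      intro h
      apply hzw
      simp only [List.mem_append, List.mem_cons, List.not_mem_nil, or_false] at h ⊢
      tauto
    have h0' : z ∉ s := by
      intro h
      apply hzw
      simp only [List.mem_append, List.mem_cons]
      tauto
    have h4 := take_mid (z := z) (p := p ++ [u]) (s := s) h0
    have h5 := filter_mid (z := z) (p := p ++ [u]) (s := s) h0 h0'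
    simp only [List.append_assoc, List.cons_append, List.nil_append] at h4 h5
    rw [h4, h5]
    simp

theorem bef_inv {X : Finset α} {z : α} {j : α × List α} (hj : j ∈ JJ X z) :
    (some j.1, j.2) = (((bef z j.1 j.2).dropWhile (fun c => c ≠ z)).tail.head?,
      (bef z j.1 j.2).filter (fun c => c ≠ z)) := by
  obtain ⟨u, w⟩ := j
  unfold JJ at hj
  rw [mem_product] at hj
  have hw := mem_ords.1 hj.2
  have hzw := not_mem_of_ord hw
  simp only at hw hzw
  have hu : u ∈ X.erase z := hj.1
  obtain ⟨p, s, h1, h2, h3⟩ := split_at hw hu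
  subst h1
  simp only
  rw [bef_split h2 h3]
  have h0 : z ∉ p := by
    intro h
    apply hzw
    simp only [List.mem_append, List.mem_cons]
    tauto
  have h0' : z ∉ u :: s := by
    intro h
    apply hzw
    simp only [List.mem_append, List.mem_cons] at h ⊢
    tauto
  rw [filter_mid h0 h0', List.dropWhile_append_of_pos]
  · simp
  · intro c hc
    have hcz : c ≠ z := fun h => h0 (h ▸ hc)
    simpa using hcz

theorem recon_bound {X : Finset α} {z : α} (e e' : Option α → List α → ℚ) (c c' : ℚ)
    (hc' : 0 ≤ c') (hcc : c' ≤ c)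
    (h0 : ∀ w ∈ ords (X.erase z), |e none w - e' none w| ≤ c)
    (hu : ∀ u ∈ X.erase z, ∀ w ∈ ords (X.erase z), |e (some u) w - e' (some u) w| ≤ c')
    (x : List α) : |recon X z e x - recon X z e' x| ≤ c + c' := by
  have hc : 0 ≤ c := hc'.trans hcc
  unfold recon
  have h1 : ∑ i ∈ II X z, (if phi z i = x then e i.1 i.2 else 0) -
      ∑ j ∈ JJ X z, (if bef z j.1 j.2 = x then e (some j.1) j.2 else 0) -
      (∑ i ∈ II X z, (if phi z i = x then e' i.1 i.2 else 0) -
      ∑ j ∈ JJ X z, (if bef z j.1 j.2 = x then e' (some j.1) j.2 else 0)) =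
      ∑ i ∈ II X z, (if phi z i = x then e i.1 i.2 - e' i.1 i.2 else 0) -
      ∑ j ∈ JJ X z, (if bef z j.1 j.2 = x then e (some j.1) j.2 - e' (some j.1) j.2 else 0) := by
    have h2 : ∀ i, (if phi z i = x then e i.1 i.2 - e' i.1 i.2 else 0) =
        (if phi z i = x then e i.1 i.2 else 0) - (if phi z i = x then e' i.1 i.2 else 0) := by
      intro i
      split_ifs <;> simp
    have h3 : ∀ j : α × List α, (if bef z j.1 j.2 = x then e (some j.1) j.2 - e' (some j.1) j.2
        else 0) = (if bef z j.1 j.2 = x then e (some j.1) j.2 else 0) -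
        (if bef z j.1 j.2 = x then e' (some j.1) j.2 else 0) := by
      intro i
      split_ifs <;> simp
    simp only [h2, h3, Finset.sum_sub_distrib]
    ring
  rw [h1]
  have h4 := abs_single (II X z) (phi z) x (fun i => e i.1 i.2 - e' i.1 i.2) c hc (by
    rintro ⟨o, w⟩ hi
    unfold II at hi
    rw [mem_product] at hi
    cases o with
    | none => exact h0 w hi.2
    | some u => exact (hu u (by simpa using hi.1) w hi.2).trans hcc) (by
    intro i hi j hj h h'
    rw [phi_inv hi, phi_inv hj, h, h'])
  have h5 := abs_single (JJ X z) (fun j => bef z j.1 j.2) x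
    (fun j => e (some j.1) j.2 - e' (some j.1) j.2) c' hc' (by
    rintro ⟨u, w⟩ hi
    unfold JJ at hi
    rw [mem_product] at hi
    exact hu u hi.1 w hi.2) (by
    intro i hi j hj h h'
    have h6 := bef_inv hi
    have h7 := bef_inv hj
    rw [h] at h6
    rw [h'] at h7
    have h8 := h6.trans h7.symm
    simp only [Prod.mk.injEq, Option.some.injEq] at h8
    exact Prod.ext h8.1 h8.2)
  rw [abs_le] at h4 h5 ⊢
  constructor <;> linarith [h4.1, h4.2, h5.1, h5.2]

theorem recon_cast {X : Finset α} {z : α} (e : Option α → List α → ℤ) (x : List α) :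
    ((recon X z e x : ℤ) : ℚ) = recon X z (fun o w => (e o w : ℚ)) x := by
  unfold recon
  push_cast
  congr 1

theorem recon_pair {X : Finset α} {z : α} (hz : z ∈ X) (e : Option α → List α → ℚ)
    (F : List α → ℚ) : ∑ x ∈ ords X, recon X z e x * F x =
      ∑ w ∈ ords (X.erase z), e none w * F (z :: w) + ∑ u ∈ X.erase z, ∑ w ∈ ords (X.erase z),
        e (some u) w * (F (aft z u w) - F (bef z u w)) := by
  unfold recon
  have h1 : ∀ x, (∑ i ∈ II X z, (if phi z i = x then e i.1 i.2 else 0) -
      ∑ j ∈ JJ X z, (if bef z j.1 j.2 = x then e (some j.1) j.2 else 0)) * F x =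
      ∑ i ∈ II X z, (if phi z i = x then e i.1 i.2 * F (phi z i) else 0) -
      ∑ j ∈ JJ X z, (if bef z j.1 j.2 = x then e (some j.1) j.2 * F (bef z j.1 j.2) else 0) := by
    intro x
    rw [sub_mul, Finset.sum_mul, Finset.sum_mul]
    congr 1
    · refine Finset.sum_congr rfl fun i _ => ?_
      split_ifs with h
      · rw [h]
      · simp
    · refine Finset.sum_congr rfl fun i _ => ?_
      split_ifs with h
      · rw [h]
      · simp
  simp only [h1]
  rw [Finset.sum_sub_distrib, Finset.sum_comm, Finset.sum_comm (s := ords X) (t := JJ X z)]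
  have h2 : ∀ i ∈ II X z, ∑ x ∈ ords X, (if phi z i = x then e i.1 i.2 * F (phi z i) else 0) =
      e i.1 i.2 * F (phi z i) := by
    intro i hi
    rw [Finset.sum_ite_eq, if_pos (phi_ord hz hi)]
  have h3 : ∀ j ∈ JJ X z, ∑ x ∈ ords X, (if bef z j.1 j.2 = x then
      e (some j.1) j.2 * F (bef z j.1 j.2) else 0) = e (some j.1) j.2 * F (bef z j.1 j.2) := by
    intro j hj
    rw [Finset.sum_ite_eq, if_pos (bef_ord hz hj)]
  rw [Finset.sum_congr rfl h2, Finset.sum_congr rfl h3]
  unfold II JJ
  rw [Finset.sum_product, Finset.sum_product, Finset.sum_insertNone]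
  unfold phi
  simp only
  rw [add_sub_assoc, ← Finset.sum_sub_distrib]
  congr 1
  refine Finset.sum_congr rfl fun u _ => ?_
  rw [← Finset.sum_sub_distrib]
  refine Finset.sum_congr rfl fun w _ => ?_
  ring

end Pool.Agent.J6H74.PS
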