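import Pool.Agent.J6H74.PS.Round

/-!
# Rounding in the kernel: the parts
-/

set_option autoImplicit false

namespace Pool.Agent.J6H74.PS

open Finset

variable {α : Type} [DecidableEq α]

/-- the parts of a measure -/
def part (X : Finset α) (z : α) (κ : List α → ℚ) (o : Option α) (w : List α) : ℚ :=
  match o with
  | none => ∑ x ∈ ords X, if x.filter (fun c => c ≠ z) = w then κ x else 0
  | some u => ∑ x ∈ ords X, if x.filter (fun c => c ≠ z) = w ∧ u ∈ x.takeWhile (fun c => c ≠ z)
      then κ x else 0

theorem part_pair {X : Finset α} {z : α} (hz : z ∈ X) (κ F : List α → ℚ) :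
    ∑ x ∈ ords X, κ x * F x = ∑ w ∈ ords (X.erase z), part X z κ none w * F (z :: w) +
      ∑ u ∈ X.erase z, ∑ w ∈ ords (X.erase z),
        part X z κ (some u) w * (F (aft z u w) - F (bef z u w)) := by
  have hf : ∀ x ∈ ords X, x.filter (fun c => c ≠ z) ∈ ords (X.erase z) := by
    intro x hx
    obtain ⟨p, s, h1, h2, h3, h4⟩ := split_of_ord hz (mem_ords.1 hx)
    rw [h1, filter_mid h2 h3]
    exact mem_ords.2 h4
  have hA : ∑ w ∈ ords (X.erase z), part X z κ none w * F (z :: w) =
      ∑ x ∈ ords X, κ x * F (z :: x.filter (fun c => c ≠ z)) := by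
    unfold part
    simp only [Finset.sum_mul]
    rw [Finset.sum_comm]
    refine Finset.sum_congr rfl fun x hx => ?_
    rw [Finset.sum_eq_single (x.filter (fun c => c ≠ z))]
    · rw [if_pos rfl]
    · intro w _ h
      rw [if_neg (Ne.symm h), zero_mul]
    · intro h
      exact absurd (hf x hx) h
  have hB : ∀ u, ∑ w ∈ ords (X.erase z), part X z κ (some u) w * (F (aft z u w) - F (bef z u w)) =
      ∑ x ∈ ords X, if u ∈ x.takeWhile (fun c => c ≠ z) then
        κ x * (F (aft z u (x.filter (fun c => c ≠ z))) - F (bef z u (x.filter (fun c => c ≠ z))))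
        else 0 := by
    intro u
    unfold part
    simp only [Finset.sum_mul]
    rw [Finset.sum_comm]
    refine Finset.sum_congr rfl fun x hx => ?_
    rw [Finset.sum_eq_single (x.filter (fun c => c ≠ z))]
    · by_cases h : u ∈ x.takeWhile (fun c => c ≠ z)
      · rw [if_pos ⟨rfl, h⟩, if_pos h]
      · rw [if_neg (fun h' => h h'.2), if_neg h, zero_mul]
    · intro w _ h
      rw [if_neg (fun h' => h h'.1.symm), zero_mul]
    · intro h
      exact absurd (hf x hx) h
  rw [hA, Finset.sum_congr rfl fun u _ => hB u, Finset.sum_comm, ← Finset.sum_add_distrib]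
  refine Finset.sum_congr rfl fun x hx => ?_
  obtain ⟨p, s, h1, h2, h3, h4⟩ := split_of_ord hz (mem_ords.1 hx)
  rw [h1, filter_mid h2 h3, take_mid h2, telescope F z p s h4.1, mul_add]
  congr 1
  have hp : p.Nodup := (List.nodup_append.1 h4.1).1
  rw [← Finset.sum_filter]
  have h5 : (X.erase z).filter (fun u => u ∈ p) = p.toFinset := by
    ext c
    rw [mem_filter, ← h4.2, List.mem_toFinset, List.mem_toFinset, List.mem_append]
    tauto
  rw [h5, List.sum_toFinset _ hp, ← List.sum_map_mul_left]

theorem recon_part {X : Finset α} {z : α} (hz : z ∈ X) (κ : List α → ℚ) {x : List α}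
    (hx : x ∈ ords X) : recon X z (part X z κ) x = κ x := by
  have h1 := part_pair hz κ (fun y => if y = x then 1 else 0)
  have h2 := recon_pair hz (part X z κ) (fun y => if y = x then 1 else 0)
  rw [← h1] at h2
  simp only [mul_ite, mul_one, mul_zero, Finset.sum_ite_eq', if_pos hx] at h2
  exact h2

/-- the values of the built function -/
theorem built_pair {k : ℕ} {X N : Finset α} {z : α} (hz : z ∈ X) (hzN : z ∉ N) (hk : 1 ≤ k)
    (κ : List α → ℚ) (hκ : Ker k X N κ) (b' : List α → ℚ) (bu : α → List α → ℚ) :
    ∑ w ∈ ords (X.erase z), part X z κ none w * Fs k (X.erase z) N b' w +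
      ∑ u ∈ X.erase z, ∑ w ∈ ords (X.erase z),
        part X z κ (some u) w * Fs (k - 1) (X.erase z) (insert u N) (bu u) w = 0 := by
  have h1 := hκ (fun v => if z ∈ v then ((v.takeWhile (fun c => c ≠ z)).map fun u =>
      bu u (v.filter (fun c => c ≠ z))).sum else b' v)
  rw [part_pair hz] at h1
  rw [← h1]
  congr 1
  · refine Finset.sum_congr rfl fun w hw => ?_
    have h2 := build hz hzN hk b' bu (p := []) (s := w) (by simp) (not_mem_of_ord (mem_ords.1 hw))
    simp only [List.nil_append, List.map_nil, List.sum_nil, add_zero] at h2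
    rw [← h2]
  · refine Finset.sum_congr rfl fun u hu => Finset.sum_congr rfl fun w hw => ?_
    have hw' := mem_ords.1 hw
    have hzw := not_mem_of_ord hw'
    obtain ⟨p, s, h3, h4, h5⟩ := split_at hw' hu
    subst h3
    have hp : z ∉ p := by
      intro h
      apply hzw
      simp only [List.mem_append, List.mem_cons]
      tauto
    have hs : z ∉ s := by
      intro h
      apply hzw
      simp only [List.mem_append, List.mem_cons]
      tauto
    have huz : z ≠ u := by
      rintro rfl
      apply hzw
      simp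
    have h6 := build hz hzN hk b' bu (p := p ++ [u]) (s := s) (by
      simp only [List.mem_append, List.mem_cons, List.not_mem_nil, or_false]
      tauto) hs
    have h7 := build hz hzN hk b' bu (p := p) (s := u :: s) hp (by
      simp only [List.mem_cons]
      tauto)
    rw [aft_split h4 h5, bef_split h4 h5]
    simp only [List.append_assoc, List.cons_append, List.nil_append, List.map_append,
      List.map_cons, List.map_nil, List.sum_append, List.sum_cons, List.sum_nil, add_zero] at h6
    rw [h6, h7]
    ring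

theorem Fs_zero (k : ℕ) (X N : Finset α) (w : List α) : Fs k X N (fun _ => (0 : ℚ)) w = 0 := by
  unfold Fs
  simp

theorem ker_none {k : ℕ} {X N : Finset α} {z : α} (hz : z ∈ X) (hzN : z ∉ N) (hk : 1 ≤ k)
    (κ : List α → ℚ) (hκ : Ker k X N κ) : Ker k (X.erase z) N (part X z κ none) := by
  intro a
  have h := built_pair hz hzN hk κ hκ a (fun _ _ => 0)
  simp only [Fs_zero, mul_zero, Finset.sum_const_zero, add_zero] at h
  exact h

theorem ker_some {k : ℕ} {X N : Finset α} {z : α} (hz : z ∈ X) (hzN : z ∉ N) (hk : 1 ≤ k)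
    (κ : List α → ℚ) (hκ : Ker k X N κ) {u : α} (hu : u ∈ X.erase z) :
    Ker (k - 1) (X.erase z) (insert u N) (part X z κ (some u)) := by
  intro a
  have h := built_pair hz hzN hk κ hκ (fun _ => 0) (fun u' => if u' = u then a else fun _ => 0)
  simp only [Fs_zero, mul_zero, Finset.sum_const_zero, zero_add] at h
  rw [Finset.sum_eq_single u] at h
  · simpa using h
  · intro u' _ hne
    simp only [if_neg hne, Fs_zero, mul_zero, Finset.sum_const_zero]
  · intro h'
    exact absurd hu h'

theorem ker_recon {k : ℕ} {X N : Finset α} {z : α} (hz : z ∈ X) (hzN : z ∉ N) (hk : 1 ≤ k)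
    (hkX : k ≤ (X.erase z).card) (e : Option α → List α → ℚ)
    (h0 : Ker k (X.erase z) N (e none))
    (hu : ∀ u ∈ X.erase z, Ker (k - 1) (X.erase z) (insert u N) (e (some u))) :
    Ker k X N (recon X z e) := by
  intro a
  rw [recon_pair hz]
  have h1 : ∑ w ∈ ords (X.erase z), e none w * Fs k X N a (z :: w) = 0 := by
    rw [← h0 (fun l => a l + (((X.erase z).card - (k - 1) : ℕ) : ℚ)⁻¹ * ∑ t ∈ l.toFinset \ N,
        a (z :: l.filter (fun c => c ≠ t)))]
    refine Finset.sum_congr rfl fun w hw => ?_
    have hw' := mem_ords.1 hw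
    rw [first_eq hz hzN hk a (not_mem_of_ord hw'),
      raise k (X.erase z) N hk hkX (fun l => a (z :: l)) hw']
    unfold Fs
    rw [← Finset.sum_add_distrib]
  rw [h1, zero_add]
  refine Finset.sum_eq_zero fun u hu' => ?_
  rw [← hu u hu' (fun l => a (aft z u l) - a (bef z u l))]
  refine Finset.sum_congr rfl fun w hw => ?_
  rw [diff_eq hz hzN hk (mem_erase.1 hu').1 a (not_mem_of_ord (mem_ords.1 hw))]

/-- the error bound (twice) -/
def err (m k : ℕ) : ℕ := ∑ i ∈ range (k + 1), m.choose i

theorem err_pos (m k : ℕ) : 1 ≤ err m k := by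
  unfold err
  rw [Finset.sum_range_succ']
  simp

theorem err_mono (m k : ℕ) : err m k ≤ err m (k + 1) := by
  unfold err
  rw [Finset.sum_range_succ _ (k + 1)]
  omega

theorem err_succ (m k : ℕ) : err (m + 1) (k + 1) = err m (k + 1) + err m k := by
  unfold err
  rw [Finset.sum_range_succ', Finset.sum_range_succ' _ (k + 1)]
  simp only [Nat.choose_succ_succ', Finset.sum_add_distrib, Nat.choose_zero_right]
  omega

/-- **Rounding.** -/
theorem rounding : ∀ (m : ℕ) (X : Finset α), X.card = m + 1 → ∀ (N : Finset α) (k : ℕ),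
    N ⊆ X → (N.Nonempty ∨ 1 ≤ k) → ∀ κ : List α → ℚ, Ker k X N κ →
    ∃ κ' : List α → ℤ, Ker k X N (fun x => (κ' x : ℚ)) ∧
      ∀ x ∈ ords X, |κ x - κ' x| ≤ (err m k : ℚ) / 2 := by
  intro m
  induction m with
  | zero =>
    intro X hX N k hN hNk κ hκ
    have hE : (1 : ℚ) ≤ (err 0 k : ℚ) := by exact_mod_cast err_pos 0 k
    obtain ⟨κ', h1, h2⟩ := trivial_round (k := k) (X := X) (N := N) (by
      intro T hT
      rw [mem_idx] at hT
      rw [mem_singleton]
      rcases Nat.eq_zero_or_pos k with h | h
      · rcases hNk with h' | h'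
        · rw [h, Finset.card_eq_zero] at hT
          rw [hT.2.1] at hT
          exact absurd (subset_empty.1 hT.2.2) h'.ne_empty
        · omega
      · exact Finset.eq_of_subset_of_card_le hT.1 (by omega)) κ hκ
    exact ⟨κ', h1, fun x hx => by have := h2 x hx; linarith⟩
  | succ m ih =>
    intro X hX N k hN hNk κ hκ
    have hpow : (1 : ℚ) / 2 ≤ (err (m + 1) k : ℚ) / 2 := by
      have : (1 : ℚ) ≤ (err (m + 1) k : ℚ) := by exact_mod_cast err_pos (m + 1) k
      linarith
    by_cases htriv : idx k X N ⊆ {X}
    · obtain ⟨κ', h1, h2⟩ := trivial_round htriv κ hκ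
      exact ⟨κ', h1, fun x hx => (h2 x hx).trans hpow⟩
    have hk : 1 ≤ k := by
      by_contra h
      apply htriv
      intro T hT
      rw [mem_idx] at hT
      have h0 : k = 0 := by omega
      rcases hNk with h' | h'
      · rw [h0, Finset.card_eq_zero] at hT
        rw [hT.2.1] at hT
        exact absurd (subset_empty.1 hT.2.2) h'.ne_empty
      · omega
    have hkX : k < X.card := by
      by_contra h
      apply htriv
      intro T hT
      rw [mem_idx] at hT
      rw [mem_singleton]
      exact Finset.eq_of_subset_of_card_le hT.1 (by omega)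
    have hNX : N ≠ X := by
      intro h
      apply htriv
      intro T hT
      rw [mem_idx, h] at hT
      rw [mem_singleton]
      exact subset_antisymm hT.1 hT.2.2
    obtain ⟨z, hz, hzN⟩ := Finset.exists_of_ssubset (hN.ssubset_of_ne hNX)
    have hX' : (X.erase z).card = m + 1 := by rw [card_erase_of_mem hz, hX]; rfl
    have hN' : N ⊆ X.erase z := by
      rw [subset_erase]
      exact ⟨hN, hzN⟩
    obtain ⟨κ₀, h1, h2⟩ := ih (X.erase z) hX' N k hN' hNk _ (ker_none hz hzN hk κ hκ)
    have hD : ∀ u, ∃ κu : List α → ℤ, u ∈ X.erase z →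
        Ker (k - 1) (X.erase z) (insert u N) (fun x => (κu x : ℚ)) ∧
        ∀ x ∈ ords (X.erase z), |part X z κ (some u) x - κu x| ≤ (err m (k - 1) : ℚ) / 2 := by
      intro u
      by_cases hu : u ∈ X.erase z
      · obtain ⟨κu, h3, h4⟩ := ih (X.erase z) hX' (insert u N) (k - 1) (insert_subset hu hN')
          (Or.inl (insert_nonempty _ _)) _ (ker_some hz hzN hk κ hκ hu)
        exact ⟨κu, fun _ => ⟨h3, h4⟩⟩
      · exact ⟨fun _ => 0, fun h => absurd h hu⟩
    choose κu hκu using hD
    obtain ⟨e, he⟩ : ∃ e : Option α → List α → ℤ, e = fun o => match o with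
      | none => κ₀
      | some u => κu u := ⟨_, rfl⟩
    have he0 : e none = κ₀ := by rw [he]
    have heu : ∀ u, e (some u) = κu u := fun u => by rw [he]
    refine ⟨recon X z e, ?_, fun x hx => ?_⟩
    · have h5 : (fun x => ((recon X z e x : ℤ) : ℚ)) = recon X z (fun o w => (e o w : ℚ)) := by
        funext x
        exact recon_cast e x
      rw [h5]
      refine ker_recon hz hzN hk (by omega) _ ?_ ?_
      · simp only [he0]
        exact h1
      · intro u hu
        simp only [heu]
        exact (hκu u hu).1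
    · rw [recon_cast, ← recon_part hz κ hx]
      obtain ⟨k', rfl⟩ : ∃ k', k = k' + 1 := ⟨k - 1, by omega⟩
      have hE1 : (err m k' : ℚ) ≤ (err m (k' + 1) : ℚ) := by exact_mod_cast err_mono m k'
      have hE2 : (err (m + 1) (k' + 1) : ℚ) = (err m (k' + 1) : ℚ) + (err m k' : ℚ) := by
        exact_mod_cast err_succ m k'
      have h6 := recon_bound (X := X) (z := z) (part X z κ) (fun o w => (e o w : ℚ))
        ((err m (k' + 1) : ℚ) / 2) ((err m k' : ℚ) / 2) (by positivity) (by linarith) (by
          intro w hw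
          simp only [he0]
          exact h2 w hw) (by
          intro u hu w hw
          simp only [heu]
          exact (hκu u hu).2 w hw) x
      refine h6.trans (le_of_eq ?_)
      rw [hE2]
      ring

end Pool.Agent.J6H74.PS
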